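import Pool.Agent.TH373.DR3.IndS

set_option autoImplicit false

/-!
# Digit matrices of consecutive roots `(√n, √(n+1), …, √(n+s-1))`

Let `ρ > 0` be a real number which is not an integer, `α ≠ 0`, and let `x_n` be the tuple of the
numbers `α (n + j)^ρ + β_j`, `j = 0, …, s - 1`; for instance the square roots of `s` consecutive
integers.  Choose an integer `n ≤ X` at random.  The digits of `x_n` in base `b` at any
`r ≤ c log X / log log X` different entries (a row `j` and a place `p`) with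
`(s - 1) log_b X + 1 ≤ p ≤ A log X` are `X^(-c)`-close, in total variation, to independent uniformly
distributed digits.  (The first digits of `√n` and `√(n+1)` after the point are almost the same: a
lower bound for the places is needed.)
-/

namespace Pool.Agent.Results.MP_c8ecb2_nt.ConsecutiveRoots

open Finset Pool.Agent.TH373.DR Pool.Agent.TH373.DR3

/-- The `j`-th digit after the point of the real number `x` in base `b` (`j ≥ 1`), that is
`⌊x b^j⌋` modulo `b`. -/
noncomputable def digit (b : ℕ) (x : ℝ) (j : ℕ) : ℤ := ⌊x * (b : ℝ) ^ j⌋ % (b : ℤ)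

/-- The tuple of the numbers `α (n + j)^ρ + β_j`, `j = 0, …, s - 1`. -/
noncomputable def tuple {s : ℕ} (ρ α : ℝ) (β : Fin s → ℝ) (n : ℕ) (j : Fin s) : ℝ :=
  α * ((n : ℝ) + (j : ℕ)) ^ ρ + β j

/-- **Theorem.** -/
theorem result (s : ℕ) (ρ : ℝ) (hρ : 0 < ρ) (hnat : ∀ k : ℕ, ρ ≠ k) (α : ℝ) (hα : α ≠ 0)
    (β : Fin s → ℝ) (b : ℕ) (hb : 2 ≤ b) (A : ℝ) :
    ∃ c : ℝ, 0 < c ∧ ∃ X₀ : ℕ, ∀ X : ℕ, X₀ ≤ X → ∀ r : ℕ,
      (r : ℝ) * Real.log (Real.log X) ≤ c * Real.log X →
      ∀ (row : Fin r → Fin s) (pl : Fin r → ℕ), Function.Injective (fun k => (row k, pl k)) →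
        (∀ k, ((s : ℝ) - 1) * Real.logb b X + 1 ≤ pl k ∧ (pl k : ℝ) ≤ A * Real.log X) →
        ∀ W : Finset (Fin r → Fin b), ∀ T : Finset ℕ,
          (∀ n, n ∈ T ↔ (1 ≤ n ∧ n ≤ X) ∧ ∃ w ∈ W, ∀ k,
            digit b (tuple ρ α β n (row k)) (pl k) = ((w k : ℕ) : ℤ)) →
          |(T.card : ℝ) - X * W.card / (b : ℝ) ^ r| ≤ (X : ℝ) ^ (1 - c) := by
  have hA' : 0 < max A 1 := lt_of_lt_of_le one_pos (le_max_right _ _)
  have hbR : (2 : ℝ) ≤ b := by exact_mod_cast hb
  have hlb : 0 < Real.log b := Real.log_pos (by linarith)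
  obtain ⟨c, hc, X0, hmain⟩ := indepS_tv (s := s) ρ hnat hρ α hα β b hb
    (((s : ℝ) - 1) / Real.log b) (max A 1) (by field_simp; exact le_rfl) hA'
  refine ⟨c, hc, max X0 3, fun X hX r hr row pl hinj hpl W T hT => ?_⟩
  have hX0 := (le_max_left X0 3).trans hX
  have hX3 := (le_max_right X0 3).trans hX
  have hlog : 0 < Real.log X := Real.log_pos (by exact_mod_cast (by omega : 1 < X))
  have hlogb : 0 < Real.logb b X := div_pos hlog hlb
  have hpl1 : ∀ k, 1 ≤ pl k := by
    intro k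
    have hs : (1 : ℝ) ≤ s := by
      have := (row k).2
      exact_mod_cast (by omega : 1 ≤ s)
    have h1 := (hpl k).1
    have h2 : 0 ≤ ((s : ℝ) - 1) * Real.logb b X := mul_nonneg (by linarith) hlogb.le
    exact_mod_cast (by linarith : (1 : ℝ) ≤ pl k)
  refine hmain X hX0 r hr row (fun k => pl k - 1) (fun k k' hkk => ?_) (fun k => ⟨?_, ?_⟩) W T
    (fun n => ?_)
  · simp only [Prod.mk.injEq] at hkk
    have h1 := hpl1 k
    have h2 := hpl1 k'
    exact hinj (Prod.ext hkk.1 (by simp only; omega))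
  · have h1 := (hpl k).1
    rw [Nat.cast_sub (hpl1 k), Nat.cast_one]
    have h2 : ((s : ℝ) - 1) / Real.log b * Real.log X = ((s : ℝ) - 1) * Real.logb b X := by
      rw [Real.logb]; ring
    rw [h2]
    linarith
  · have h1 : ((pl k - 1 : ℕ) : ℝ) ≤ pl k := by exact_mod_cast Nat.sub_le _ _
    exact h1.trans ((hpl k).2.trans (mul_le_mul_of_nonneg_right (le_max_left _ _) hlog.le))
  · rw [hT]
    apply and_congr_right
    intro _
    apply exists_congr
    intro w
    apply and_congr_right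
    intro _
    unfold Has
    apply forall_congr'
    intro k
    rw [dgt_eq b _ _ (hpl1 k)]
    rfl

end Pool.Agent.Results.MP_c8ecb2_nt.ConsecutiveRoots
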