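import Pool.Agent.TH373.DR3.TVM
import Pool.Agent.TH373.DR3.Freq

set_option autoImplicit false

/-!
# Digit matrices of the tuples `(√n, ∛n, …)`

Let `ρ_1, …, ρ_s` be distinct positive real numbers which are not integers and let
`x_n = (α_1 n^(ρ_1) + β_1, …, α_s n^(ρ_s) + β_s)`; for instance
`x_n = (n^(1/2), n^(1/3), …, n^(1/(s+1)))`, a tuple of algebraic numbers.

(1) Choose an integer `n ≤ X` at random.  The digits of `x_n` in base `b` at any
`r ≤ c log X / log log X` different entries (a row `j` and a place `p`, `1 ≤ p ≤ A log X`) are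
`X^(-c)`-close, in total variation, to independent uniformly distributed digits.

(2) For all but `O(X / (ε² L))` of the integers `n ≤ X`, every digit matrix with `s` rows and `m`
columns occurs in `x_n` at `(b^(-s m) ± ε) L` of the places `1, …, L`; here `L + m ≤ A log X`.
-/

namespace Pool.Agent.Results.MP_c8ecb2_nt.PowersIndependentDigits

open Finset Pool.Agent.TH373.DR Pool.Agent.TH373.DR3

/-- The `j`-th digit after the point of the real number `x` in base `b` (`j ≥ 1`), that is
`⌊x b^j⌋` modulo `b`. -/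
noncomputable def digit (b : ℕ) (x : ℝ) (j : ℕ) : ℤ := ⌊x * (b : ℝ) ^ j⌋ % (b : ℤ)

/-- The tuple of the numbers `α_j n^(ρ_j) + β_j`. -/
noncomputable def tuple {s : ℕ} (ρ α β : Fin s → ℝ) (n : ℕ) (j : Fin s) : ℝ :=
  α j * (n : ℝ) ^ (ρ j) + β j

/-- The digit matrix of the tuple `x` which begins at the place `i` (with `m` columns) is `D`. -/
def Occurs (b m : ℕ) {s : ℕ} (x : Fin s → ℝ) (D : Fin s → Fin m → Fin b) (i : ℕ) : Prop :=
  ∀ (j : Fin s) (t : Fin m), digit b (x j) (i + t) = ((D j t : ℕ) : ℤ)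

open Classical in
/-- The number of the places `i = 1, …, L` at which the digit matrix `D` occurs in `x`. -/
noncomputable def occ (b m : ℕ) {s : ℕ} (x : Fin s → ℝ) (D : Fin s → Fin m → Fin b) (L : ℕ) : ℕ :=
  ((Icc 1 L).filter (fun i => Occurs b m x D i)).card

/-- **Theorem.** -/
theorem result (s : ℕ) (ρ α β : Fin s → ℝ) (hρ : Function.Injective ρ) (hρ0 : ∀ j, 0 < ρ j)
    (hnat : ∀ j, ∀ k : ℕ, ρ j ≠ k) (hα : ∀ j, α j ≠ 0) (b : ℕ) (hb : 2 ≤ b) (A : ℝ) :
    (∃ c : ℝ, 0 < c ∧ ∃ X₀ : ℕ, ∀ X : ℕ, X₀ ≤ X → ∀ r : ℕ,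
      (r : ℝ) * Real.log (Real.log X) ≤ c * Real.log X →
      ∀ (row : Fin r → Fin s) (pl : Fin r → ℕ), Function.Injective (fun k => (row k, pl k)) →
        (∀ k, 1 ≤ pl k ∧ (pl k : ℝ) ≤ A * Real.log X) →
        ∀ W : Finset (Fin r → Fin b), ∀ T : Finset ℕ,
          (∀ n, n ∈ T ↔ (1 ≤ n ∧ n ≤ X) ∧ ∃ w ∈ W, ∀ k,
            digit b (tuple ρ α β n (row k)) (pl k) = ((w k : ℕ) : ℤ)) →
          |(T.card : ℝ) - X * W.card / (b : ℝ) ^ r| ≤ (X : ℝ) ^ (1 - c)) ∧
    (∀ m : ℕ, ∃ X₀ : ℕ, ∀ X : ℕ, X₀ ≤ X → ∀ L : ℕ, 1 ≤ L →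
      ((L : ℝ) + m) ≤ A * Real.log X → ∀ ε : ℝ, 0 < ε → ∀ T : Finset ℕ,
        (∀ n ∈ T, (1 ≤ n ∧ n ≤ X) ∧ ∃ D : Fin s → Fin m → Fin b,
          ε * L ≤ |(occ b m (tuple ρ α β n) D L : ℝ) - L / (b : ℝ) ^ (s * m)|) →
        (T.card : ℝ) ≤ (b : ℝ) ^ (s * m) * (2 * m + 1) * X / (ε ^ 2 * L)) := by
  classical
  have hA' : 0 < max A 1 := lt_of_lt_of_le one_pos (le_max_right _ _)
  have hbR : (2 : ℝ) ≤ b := by exact_mod_cast hb
  constructor
  · obtain ⟨c, hc, X0, hmain⟩ := indepM_tv ρ hρ hnat hρ0 α β hα b hb (max A 1) hA'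
    refine ⟨c, hc, max X0 3, fun X hX r hr row pl hinj hpl W T hT => ?_⟩
    have hX0 := (le_max_left X0 3).trans hX
    have hX3 := (le_max_right X0 3).trans hX
    have hlog : 0 < Real.log X := Real.log_pos (by exact_mod_cast (by omega : 1 < X))
    refine hmain X hX0 r hr row (fun k => pl k - 1) (fun k k' hkk => ?_) (fun k => ?_) W T
      (fun n => ?_)
    · simp only [Prod.mk.injEq] at hkk
      have h1 := (hpl k).1
      have h2 := (hpl k').1
      exact hinj (Prod.ext hkk.1 (by simp only; omega))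
    · have h1 : ((pl k - 1 : ℕ) : ℝ) ≤ pl k := by exact_mod_cast Nat.sub_le _ _
      exact h1.trans ((hpl k).2.trans (mul_le_mul_of_nonneg_right (le_max_left _ _) hlog.le))
    · rw [hT]
      apply and_congr_right
      intro _
      apply exists_congr
      intro w
      apply and_congr_right
      intro _
      unfold Has
      apply forall_congr'
      intro k
      rw [dgt_eq b _ _ (hpl k).1]
      rfl
  · intro m
    obtain ⟨X0, hmain⟩ := freqM ρ hρ hnat hρ0 α β hα b hb (max A 1) hA' m
    refine ⟨max X0 3, fun X hX L hL hLm ε hε T hT => ?_⟩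
    have hX0 := (le_max_left X0 3).trans hX
    have hX3 := (le_max_right X0 3).trans hX
    have hlog : 0 < Real.log X := Real.log_pos (by exact_mod_cast (by omega : 1 < X))
    have hL0 : (0 : ℝ) < L := by exact_mod_cast hL
    set TD : (Fin s → Fin m → Fin b) → Finset ℕ := fun D => T.filter (fun n =>
      ε * L ≤ |(occ b m (tuple ρ α β n) D L : ℝ) - L / (b : ℝ) ^ (s * m)|) with hTD
    have hone : ∀ D, ((TD D).card : ℝ) ≤ (2 * m + 1) * X / (ε ^ 2 * L) := by
      intro D
      rw [le_div_iff₀ (by positivity)]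
      refine hmain X hX0 L hL ?_ (fun j t => (D j t : ℕ)) (fun j t => (D j t).2) ε hε
        (fun n => Classical.decPred _) (TD D) ?_
      · push_cast
        exact hLm.trans (mul_le_mul_of_nonneg_right (le_max_left _ _) hlog.le)
      · intro n hn
        rw [hTD, mem_filter] at hn
        refine ⟨(hT n hn.1).1, ?_⟩
        have h1 := hn.2
        have e1 : occ b m (tuple ρ α β n) D L = ((range L).filter (fun i : ℕ => ∀ j (t : Fin m),
            dgt b ((α j * (n : ℝ) ^ (ρ j) + β j) * (b : ℝ) ^ (i + (t : ℕ))) = (((D j t : ℕ)) : ℤ))).card := by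
          unfold occ
          symm
          refine card_bij (fun i _ => i + 1) ?_ ?_ ?_
          · intro i hi
            rw [mem_filter, mem_range] at hi
            rw [mem_filter, mem_Icc]
            refine ⟨⟨by omega, by omega⟩, ?_⟩
            intro j t
            have h2 := hi.2 j t
            have h3 := dgt_eq b (α j * (n : ℝ) ^ (ρ j) + β j) (i + 1 + (t : ℕ)) (by omega)
            have e : i + 1 + (t : ℕ) - 1 = i + (t : ℕ) := by omega
            rw [e, h2] at h3
            exact h3.symm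
          · intro i _ i' _ h
            omega
          · intro i hi
            rw [mem_filter, mem_Icc] at hi
            refine ⟨i - 1, ?_, by omega⟩
            rw [mem_filter, mem_range]
            refine ⟨by omega, ?_⟩
            intro j t
            have h2 := hi.2 j t
            have h3 := dgt_eq b (α j * (n : ℝ) ^ (ρ j) + β j) (i + (t : ℕ)) (by omega)
            have e : i + (t : ℕ) - 1 = i - 1 + (t : ℕ) := by omega
            rw [e] at h3
            rw [h3]
            exact h2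
        rw [e1] at h1
        convert h1 using 6
    have hsub : T ⊆ univ.biUnion TD := by
      intro n hn
      obtain ⟨_, D, hD⟩ := hT n hn
      rw [mem_biUnion]
      exact ⟨D, mem_univ _, by rw [hTD]; exact mem_filter.2 ⟨hn, hD⟩⟩
    have h1 : (T.card : ℝ) ≤ ∑ D, ((TD D).card : ℝ) := by
      exact_mod_cast (card_le_card hsub).trans card_biUnion_le
    refine h1.trans ((sum_le_sum fun D _ => hone D).trans (le_of_eq ?_))
    rw [sum_const, card_univ, Fintype.card_fun, Fintype.card_fun, Fintype.card_fin, Fintype.card_fin,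
      Fintype.card_fin, nsmul_eq_mul]
    push_cast
    rw [← pow_mul, mul_comm m s]
    ring

end Pool.Agent.Results.MP_c8ecb2_nt.PowersIndependentDigits
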