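import Mathlib
import Pool.Agent.TH419.WI.Final

set_option autoImplicit false

open Finset

namespace Pool.Agent.Results.MP_c8ecb2_nt.SUnitMultiples

/-- the `i`-th digit after the point of the base `b` expansion of `x` -/
noncomputable def digit (b : ℕ) (x : ℝ) (i : ℕ) : ℤ := ⌊x * (b : ℝ) ^ i⌋ % (b : ℤ)

/-- Let `α_1, …, α_n` be real algebraic numbers such that `1, α_1, …, α_n` are linearly independent
over `ℚ`, `b ≥ 2`, and `S` a finite set of primes.  Fix `D, E, K, C` and `ε > 0`.  There is `M` such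
that the following holds for every `m ≥ M` and all pairwise different pairs `(k_j, r_j)`,
`1 ≤ j ≤ D`, where `r_j ≥ 1` is a rational number whose numerator and denominator are composed of
primes in `S`, with numerator at most `b ^ (C m)`, and where, for `k_i = k_j`, the quotient
`r_i / r_j` is a power of `b` unless all `b ^ s r_i / r_j`, `s ∈ ℤ`, have a numerator or a
denominator exceeding `M`: no nontrivial real linear combination of the `D` words formed by the
first `m` base `b` digits of the numbers `r_j α_{k_j}` agrees outside `K` coordinates with a sum of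
`E` periodic sequences whose periods add up to at most `(1 - ε) m / (K + 1)`. -/
theorem result (b n : ℕ) (hb : 2 ≤ b) (α : Fin n → ℝ) (halg : ∀ k, IsAlgebraic ℚ (α k))
    (hind : LinearIndependent ℚ (Fin.cons 1 α : Fin (n + 1) → ℝ)) (S : Finset ℕ)
    (D E K C : ℕ) (ε : ℝ) (hε : 0 < ε) :
    ∃ M : ℕ, ∀ m : ℕ, M ≤ m → ∀ (k : Fin D → Fin n) (r : Fin D → ℚ),
      Function.Injective (fun j => (k j, r j)) →
      (∀ j, 1 ≤ r j ∧ (r j).num.natAbs.primeFactors ⊆ S ∧ (r j).den.primeFactors ⊆ S) →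
      (∀ j, (r j).num.natAbs ≤ b ^ (C * m)) →
      (∀ i j, k i = k j → ∀ u v : ℕ, 0 < u → u ≤ M → 0 < v → v ≤ M → ∀ s : ℤ,
        (u : ℚ) * (b : ℚ) ^ s * r i = v * r j → ∃ e : ℤ, r i = (b : ℚ) ^ e * r j) →
      ∀ lam : Fin D → ℝ, lam ≠ 0 → ∀ p : Fin E → ℕ, (∀ l, 0 < p l) →
      ((∑ l, p l : ℕ) : ℝ) ≤ (1 - ε) * m / (K + 1) →
      ∀ f : Fin E → ℕ → ℝ, (∀ l i, f l (i + p l) = f l i) →
      K < ((Finset.range m).filter (fun i =>
        ∑ j, lam j * (digit b (r j * α (k j)) (i + 1) : ℝ) ≠ ∑ l, f l i)).card :=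
  Pool.Agent.TH419.WI.windows α halg hind b hb S D E K C ε hε

end Pool.Agent.Results.MP_c8ecb2_nt.SUnitMultiples
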